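import Mathlib

/-!
# Polynomial numerical indices of the space of zero-sum vectors of complex `ℓ_∞^3`

Lemmas of helper23 (copied from the proof of the frozen statement).
-/

set_option autoImplicit false

namespace Pool.Agent.PNI

noncomputable section

open Bornology

/-- The space: zero-sum vectors of the complex space `ℓ_∞^3` (a two-dimensional complex space). -/
abbrev X0 : Submodule ℂ (Fin 3 → ℂ) where
  carrier := {v | v 0 + v 1 + v 2 = 0}
  add_mem' := by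
    intro a b ha hb
    simp only [Set.mem_ofPred_eq, Pi.add_apply] at *
    linear_combination ha + hb
  zero_mem' := by simp
  smul_mem' := by
    intro c a ha
    simp only [Set.mem_ofPred_eq, Pi.smul_apply, smul_eq_mul] at *
    linear_combination c * ha

/-- the numerical radius functional, as in the frozen statement -/
abbrev nr (k : ℕ) (A : ContinuousMultilinearMap ℂ (fun _ : Fin k => X0) X0) : ℝ :=
  ⨆ p : {p : X0 × (X0 →L[ℂ] ℂ) // ‖p.1‖ = 1 ∧ ‖p.2‖ = 1 ∧ p.2 p.1 = 1},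
                ‖p.1.2 (A (fun _ => p.1.1))‖

abbrev SS (k : ℕ) : Set ℝ := {c : ℝ | 0 ≤ c ∧
          ∀ (A : ContinuousMultilinearMap ℂ (fun _ : Fin k => X0) X0) (y : X0), ‖y‖ ≤ 1 →
            c * ‖A (fun _ => y)‖ ≤ nr k A}

lemma sum3 (x : X0) (i : Fin 3) : x.1 i + x.1 (i+1) + x.1 (i+2) = 0 := by
  have h : x.1 0 + x.1 1 + x.1 2 = 0 := x.2
  fin_cases i
  · simpa using h
  · show x.1 1 + x.1 2 + x.1 0 = 0
    linear_combination h
  · show x.1 2 + x.1 0 + x.1 1 = 0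
    linear_combination h

lemma norm_coord_le (x : X0) (i : Fin 3) : ‖x.1 i‖ ≤ ‖x‖ := norm_le_pi_norm x.1 i

lemma nr_bdd (k : ℕ) (A : ContinuousMultilinearMap ℂ (fun _ : Fin k => X0) X0) :
    BddAbove (Set.range fun p : {p : X0 × (X0 →L[ℂ] ℂ) // ‖p.1‖ = 1 ∧ ‖p.2‖ = 1 ∧ p.2 p.1 = 1} =>
                ‖p.1.2 (A (fun _ => p.1.1))‖) := by
  refine ⟨‖A‖, ?_⟩
  rintro _ ⟨p, rfl⟩
  obtain ⟨⟨x, φ⟩, hx, hφ, hφx⟩ := p
  simp only at *
  calc ‖φ (A fun _ => x)‖ ≤ ‖φ‖ * ‖A fun _ => x‖ := φ.le_opNorm _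
    _ = ‖A fun _ => x‖ := by rw [hφ, one_mul]
    _ ≤ ‖A‖ * ∏ i : Fin k, ‖x‖ := A.le_opNorm _
    _ = ‖A‖ := by simp [hx]

lemma nr_nonneg (k : ℕ) (A : ContinuousMultilinearMap ℂ (fun _ : Fin k => X0) X0) :
    0 ≤ nr k A := Real.iSup_nonneg fun _ => norm_nonneg _

/-- coordinate functional restricted to `X0`, times a scalar -/
def coordF (i : Fin 3) : X0 →L[ℂ] ℂ := (ContinuousLinearMap.proj i).comp X0.subtypeL

lemma coordF_apply (i : Fin 3) (x : X0) : coordF i x = x.1 i := rfl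

lemma coord_le_nr (k : ℕ) (A : ContinuousMultilinearMap ℂ (fun _ : Fin k => X0) X0)
    (x : X0) (hx : ‖x‖ = 1) (i : Fin 3) (hi : ‖x.1 i‖ = 1) :
    ‖(A (fun _ => x)).1 i‖ ≤ nr k A := by
  set c : ℂ := (starRingEnd ℂ) (x.1 i) with hc
  have hcn : ‖c‖ = 1 := by rw [hc, RCLike.norm_conj, hi]
  set φ : X0 →L[ℂ] ℂ := c • coordF i with hφ
  have h1 : φ x = 1 := by
    rw [hφ, smul_apply, coordF_apply, smul_eq_mul, hc, mul_comm,
      Complex.mul_conj, Complex.normSq_eq_norm_sq, hi]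
    simp
  have hφn : ‖φ‖ = 1 := by
    apply le_antisymm
    · refine φ.opNorm_le_bound zero_le_one fun y => ?_
      rw [hφ, smul_apply, coordF_apply, norm_smul, hcn, one_mul, one_mul]
      exact norm_coord_le y i
    · have := φ.le_opNorm x
      rw [h1, hx, mul_one, norm_one] at this
      exact this
  have key := le_ciSup (nr_bdd k A) ⟨(x, φ), hx, hφn, h1⟩
  have e : ‖φ (A fun _ => x)‖ = ‖(A (fun _ => x)).1 i‖ := by
    rw [hφ, smul_apply, coordF_apply, norm_smul, hcn, one_mul]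
  simp only at key
  rw [e] at key
  exact key

lemma norm_le_of_two (z : X0) (i j : Fin 3) (hij : i ≠ j) (M : ℝ) (hi : ‖z.1 i‖ ≤ M)
    (hj : ‖z.1 j‖ ≤ M) : ‖z‖ ≤ 2 * M := by
  have hM : 0 ≤ M := le_trans (norm_nonneg _) hi
  have key : ∀ a b c : ℂ, a + b + c = 0 → ‖a‖ ≤ M → ‖b‖ ≤ M → ‖c‖ ≤ 2 * M := by
    intro a b c h ha hb
    have : c = -(a + b) := by linear_combination h
    rw [this, norm_neg]
    linarith [norm_add_le a b]
  have h : z.1 0 + z.1 1 + z.1 2 = 0 := z.2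
  have : ∀ l : Fin 3, ‖z.1 l‖ ≤ 2 * M := by
    fin_cases i <;> fin_cases j <;> simp only [Fin.zero_eta, Fin.mk_one, Fin.reduceFinMk, ne_eq, not_true_eq_false] at * <;>
    · intro l
      have h2 := fun hh => key (z.1 0) (z.1 1) (z.1 2) hh
      have h3 := fun hh => key (z.1 1) (z.1 2) (z.1 0) hh
      have h4 := fun hh => key (z.1 0) (z.1 2) (z.1 1) hh
      have e3 : z.1 1 + z.1 2 + z.1 0 = 0 := by linear_combination h
      have e4 : z.1 0 + z.1 2 + z.1 1 = 0 := by linear_combination h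
      fin_cases l <;> simp only [Fin.zero_eta, Fin.mk_one, Fin.reduceFinMk] <;>
        first
          | linarith
          | exact h2 h hi hj
          | exact h3 e3 hi hj
          | exact h4 e4 hi hj
          | exact h2 h hj hi
          | exact h3 e3 hj hi
          | exact h4 e4 hj hi
  have h2M : 0 ≤ 2 * M := by linarith
  exact (pi_norm_le_iff_of_nonneg h2M).mpr this

/-- unit vector difference `e_{i+1} - e_{i+2}` in `X0` -/
def hvec (i : Fin 3) : X0 := ⟨Pi.single (i+1) 1 - Pi.single (i+2) 1, by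
  show (Pi.single (i+1) 1 - Pi.single (i+2) 1 : Fin 3 → ℂ) 0 + 
    (Pi.single (i+1) 1 - Pi.single (i+2) 1 : Fin 3 → ℂ) 1 + 
    (Pi.single (i+1) 1 - Pi.single (i+2) 1 : Fin 3 → ℂ) 2 = 0
  fin_cases i <;> simp⟩

lemma hvec_0 (i : Fin 3) : (hvec i).1 i = 0 := by
  fin_cases i <;> simp [hvec]

lemma hvec_1 (i : Fin 3) : (hvec i).1 (i+1) = 1 := by
  fin_cases i <;> simp [hvec]

lemma hvec_2 (i : Fin 3) : (hvec i).1 (i+2) = -1 := by
  fin_cases i <;> simp [hvec]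

lemma forall_coord (i : Fin 3) (P : Fin 3 → Prop) (h0 : P i) (h1 : P (i+1)) (h2 : P (i+2)) :
    ∀ l, P l := by
  intro l
  fin_cases i <;> fin_cases l <;> first | exact h0 | exact h1 | exact h2

lemma exists_two (k : ℕ) (A : ContinuousMultilinearMap ℂ (fun _ : Fin k => X0) X0)
    (y : X0) (hy : ‖y‖ = 1) :
    ∃ x : X0, ‖x‖ = 1 ∧ (∃ i j : Fin 3, i ≠ j ∧ ‖x.1 i‖ = 1 ∧ ‖x.1 j‖ = 1) ∧
      ‖A (fun _ => y)‖ ≤ ‖A (fun _ => x)‖ := by
  -- some coordinate has modulus one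
  obtain ⟨i, hi⟩ : ∃ i, ‖y.1 i‖ = 1 := by
    by_contra hcon
    push Not at hcon
    have h1 : ∀ i, ‖y.1 i‖ < 1 := fun i =>
      lt_of_le_of_ne ((norm_coord_le y i).trans hy.le) (hcon i)
    have : ‖y.1‖ < 1 := (pi_norm_lt_iff zero_lt_one).mpr h1
    have h2 : ‖y.1‖ = 1 := hy
    linarith
  by_cases hA : ‖y.1 (i+1)‖ = 1
  · exact ⟨y, hy, ⟨i, i+1, by fin_cases i <;> decide, hi, hA⟩, le_rfl⟩
  by_cases hB : ‖y.1 (i+2)‖ = 1
  · exact ⟨y, hy, ⟨i, i+2, by fin_cases i <;> decide, hi, hB⟩, le_rfl⟩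
  have hA' : ‖y.1 (i+1)‖ < 1 := lt_of_le_of_ne ((norm_coord_le y _).trans hy.le) hA
  have hB' : ‖y.1 (i+2)‖ < 1 := lt_of_le_of_ne ((norm_coord_le y _).trans hy.le) hB
  set U : Set ℂ := {l : ℂ | ‖y.1 (i+1) + l‖ < 1 ∧ ‖y.1 (i+2) - l‖ < 1} with hU
  have hUo : IsOpen U := by
    apply IsOpen.inter
    · exact isOpen_lt (continuous_const.add continuous_id).norm continuous_const
    · exact isOpen_lt (continuous_const.sub continuous_id).norm continuous_const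
  have hU0 : (0:ℂ) ∈ U := by
    simp only [hU, Set.mem_ofPred_eq, add_zero, sub_zero]
    exact ⟨hA', hB'⟩
  have hUb : Bornology.IsBounded U := by
    rw [isBounded_iff_forall_norm_le]
    refine ⟨2, fun l hl => ?_⟩
    have h1 := hl.1
    have : l = (y.1 (i+1) + l) - y.1 (i+1) := by ring
    rw [this]
    have := norm_sub_le (y.1 (i+1) + l) (y.1 (i+1))
    linarith
  set f : ℂ → X0 := fun l => A (fun _ => y + l • hvec i) with hf
  have hfd : Differentiable ℂ f := by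
    intro l
    apply DifferentiableAt.fun_comp' l (g := fun m : Fin k → X0 => A m)
      (f := fun l : ℂ => fun _ : Fin k => y + l • hvec i)
    · exact (A.hasFDerivAt _).differentiableAt
    · fun_prop
  obtain ⟨z, hz, hmax⟩ := Complex.exists_mem_frontier_isMaxOn_norm hUb ⟨0, hU0⟩ hfd.diffContOnCl
  rw [hUo.frontier_eq] at hz
  have hzc : ‖y.1 (i+1) + z‖ ≤ 1 ∧ ‖y.1 (i+2) - z‖ ≤ 1 := by
    have hcl : IsClosed {l : ℂ | ‖y.1 (i+1) + l‖ ≤ 1 ∧ ‖y.1 (i+2) - l‖ ≤ 1} := by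
      apply IsClosed.inter
      · exact isClosed_le (continuous_const.add continuous_id).norm continuous_const
      · exact isClosed_le (continuous_const.sub continuous_id).norm continuous_const
    have : closure U ⊆ {l : ℂ | ‖y.1 (i+1) + l‖ ≤ 1 ∧ ‖y.1 (i+2) - l‖ ≤ 1} :=
      closure_minimal (fun l hl => ⟨hl.1.le, hl.2.le⟩) hcl
    exact this hz.1
  have hm : ‖f 0‖ ≤ ‖f z‖ := hmax (subset_closure hU0)
  have e0 : f 0 = A (fun _ => y) := by simp [hf]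
  set x : X0 := y + z • hvec i with hx
  have x0 : x.1 i = y.1 i := by
    show y.1 i + z * (hvec i).1 i = y.1 i
    rw [hvec_0]; ring
  have x1 : x.1 (i+1) = y.1 (i+1) + z := by
    show y.1 (i+1) + z * (hvec i).1 (i+1) = _
    rw [hvec_1]; ring
  have x2 : x.1 (i+2) = y.1 (i+2) - z := by
    show y.1 (i+2) + z * (hvec i).1 (i+2) = _
    rw [hvec_2]; ring
  have hxn : ‖x‖ = 1 := by
    apply le_antisymm
    · show ‖x.1‖ ≤ 1
      rw [pi_norm_le_iff_of_nonneg zero_le_one]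
      apply forall_coord i (fun l => ‖x.1 l‖ ≤ 1)
      · rw [x0, hi]
      · rw [x1]; exact hzc.1
      · rw [x2]; exact hzc.2
    · calc (1:ℝ) = ‖x.1 i‖ := by rw [x0, hi]
        _ ≤ ‖x‖ := norm_coord_le x i
  refine ⟨x, hxn, ?_, ?_⟩
  · have hznU : ¬ (‖y.1 (i+1) + z‖ < 1 ∧ ‖y.1 (i+2) - z‖ < 1) := hz.2
    by_cases h1 : ‖y.1 (i+1) + z‖ < 1
    · have h2 : ‖y.1 (i+2) - z‖ = 1 := by
        apply le_antisymm hzc.2
        by_contra hcon
        exact hznU ⟨h1, not_le.mp hcon⟩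
      exact ⟨i, i+2, by fin_cases i <;> decide, by rw [x0, hi], by rw [x2, h2]⟩
    · exact ⟨i, i+1, by fin_cases i <;> decide, by rw [x0, hi],
        by rw [x1]; exact le_antisymm hzc.1 (not_lt.mp h1)⟩
  · rw [← e0]
    exact hm

/-- scaling to the unit sphere -/
lemma scale_bound (k : ℕ) (A : ContinuousMultilinearMap ℂ (fun _ : Fin (k+1) => X0) X0)
    (y : X0) (hy : ‖y‖ ≤ 1) (hy0 : y ≠ 0) :
    ∃ u : X0, ‖u‖ = 1 ∧ ‖A (fun _ => y)‖ ≤ ‖A (fun _ => u)‖ := by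
  have hyn : 0 < ‖y‖ := norm_pos_iff.mpr hy0
  refine ⟨((‖y‖⁻¹ : ℝ) : ℂ) • y, ?_, ?_⟩
  · rw [norm_smul, Complex.norm_real, norm_inv, norm_norm, inv_mul_cancel₀ hyn.ne']
  · have : A (fun _ => ((‖y‖⁻¹ : ℝ) : ℂ) • y) = ((‖y‖⁻¹ : ℝ) : ℂ)^(k+1) • A (fun _ => y) := by
      have := A.map_smul_univ (fun _ => ((‖y‖⁻¹ : ℝ) : ℂ)) (fun _ => y)
      rw [this]
      simp
    rw [this, norm_smul, norm_pow, Complex.norm_real, norm_inv, norm_norm]
    have h1 : 1 ≤ (‖y‖⁻¹)^(k+1) := one_le_pow₀ (one_le_inv_iff₀.mpr ⟨hyn, hy⟩)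
    nlinarith [norm_nonneg (A fun _ => y)]

lemma half_mem (k : ℕ) : (1/2 : ℝ) ∈ SS (k+1) := by
  refine ⟨by norm_num, fun A y hy => ?_⟩
  by_cases hy0 : y = 0
  · have : A (fun _ => y) = 0 := A.map_coord_zero 0 hy0
    rw [this, norm_zero, mul_zero]
    exact nr_nonneg _ A
  obtain ⟨u, hu, hyu⟩ := scale_bound k A y hy hy0
  obtain ⟨x, hx, ⟨i, j, hij, hi, hj⟩, hux⟩ := exists_two _ A u hu
  have := norm_le_of_two (A fun _ => x) i j hij _ (coord_le_nr _ A x hx i hi)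
    (coord_le_nr _ A x hx j hj)
  linarith

lemma anti (k : ℕ) : SS (k+2) ⊆ SS (k+1) := by
  rintro c ⟨hc, h⟩
  refine ⟨hc, fun A y hy => ?_⟩
  by_cases hy0 : y = 0
  · have : A (fun _ => y) = 0 := A.map_coord_zero 0 hy0
    rw [this, norm_zero, mul_zero]
    exact nr_nonneg _ A
  obtain ⟨u, hu, hyu⟩ := scale_bound k A y hy hy0
  obtain ⟨φ, hφ, hφu⟩ := exists_dual_vector ℂ u (by rw [hu]; exact one_ne_zero)
  set B : ContinuousMultilinearMap ℂ (fun _ : Fin (k+2) => X0) X0 :=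
    ContinuousLinearMap.uncurryLeft (φ.smulRight A) with hB
  have hBx : ∀ x : X0, B (fun _ => x) = φ x • A (fun _ => x) := by
    intro x
    rw [hB, ContinuousLinearMap.uncurryLeft_apply]
    simp [Fin.tail_def]
  have h1 := h B u hu.le
  have h2 : ‖B (fun _ => u)‖ = ‖A (fun _ => u)‖ := by
    rw [hBx, norm_smul, hφu, hu]; simp
  have h3 : nr (k+2) B ≤ nr (k+1) A := by
    apply Real.iSup_le _ (nr_nonneg _ A)
    rintro ⟨⟨x, ψ⟩, hx, hψ, hψx⟩
    simp only at *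
    rw [hBx, map_smul, norm_smul]
    have h4 : ‖φ x‖ ≤ 1 := by
      have := φ.le_opNorm x
      rwa [hφ, hx, mul_one] at this
    have h5 : ‖ψ (A fun _ => x)‖ ≤ nr (k+1) A := by
      have := le_ciSup (nr_bdd (k+1) A) ⟨(x, ψ), hx, hψ, hψx⟩
      exact this
    calc ‖φ x‖ * ‖ψ (A fun _ => x)‖ ≤ 1 * ‖ψ (A fun _ => x)‖ := by
          gcongr
      _ ≤ _ := by rw [one_mul]; exact h5
  calc c * ‖A fun _ => y‖ ≤ c * ‖A fun _ => u‖ := by gcongr
    _ = c * ‖B fun _ => u‖ := by rw [h2]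
    _ ≤ nr (k+2) B := h1
    _ ≤ nr (k+1) A := h3

/-- the test operator `T(a,b,c) = (b-c, c-a, a-b)` on `X0` -/
def Tlin : X0 →ₗ[ℂ] X0 where
  toFun x := ⟨fun i => x.1 (i+1) - x.1 (i+2), by
    show (x.1 (0+1) - x.1 (0+2)) + (x.1 (1+1) - x.1 (1+2)) + (x.1 (2+1) - x.1 (2+2)) = 0
    show (x.1 1 - x.1 2) + (x.1 2 - x.1 0) + (x.1 0 - x.1 1) = 0
    ring⟩
  map_add' x y := by
    apply Subtype.ext
    funext i
    show (x.1 (i+1) + y.1 (i+1)) - (x.1 (i+2) + y.1 (i+2)) =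
      (x.1 (i+1) - x.1 (i+2)) + (y.1 (i+1) - y.1 (i+2))
    ring
  map_smul' c x := by
    apply Subtype.ext
    funext i
    show c * x.1 (i+1) - c * x.1 (i+2) = c * (x.1 (i+1) - x.1 (i+2))
    ring

def T : X0 →L[ℂ] X0 := LinearMap.toContinuousLinearMap Tlin

lemma T_coord (x : X0) (i : Fin 3) : (T x).1 i = x.1 (i+1) - x.1 (i+2) := rfl

lemma T_coord_bound (x : X0) (hx : ‖x‖ = 1) (i : Fin 3) (hi : ‖x.1 i‖ = 1) :
    ‖(T x).1 i‖ ≤ Real.sqrt 3 := by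
  rw [T_coord]
  apply Real.le_sqrt_of_sq_le
  have hp := parallelogram_law_with_norm ℂ (x.1 (i+1)) (x.1 (i+2))
  have hs : x.1 (i+1) + x.1 (i+2) = - x.1 i := by linear_combination sum3 x i
  rw [hs, norm_neg, hi] at hp
  have h1 : ‖x.1 (i+1)‖ ≤ 1 := (norm_coord_le x _).trans hx.le
  have h2 : ‖x.1 (i+2)‖ ≤ 1 := (norm_coord_le x _).trans hx.le
  nlinarith [norm_nonneg (x.1 (i+1)), norm_nonneg (x.1 (i+2))]

/-- a functional of norm one on `ℓ_∞^3` has coefficients of total modulus at most one -/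
lemma sum_coef_le (g : (Fin 3 → ℂ) →L[ℂ] ℂ) (hg : ‖g‖ = 1) :
    ∑ i, ‖g (Pi.single i 1)‖ ≤ 1 := by
  set u : Fin 3 → ℂ := fun i =>
    if g (Pi.single i 1) = 0 then 0
    else (starRingEnd ℂ) (g (Pi.single i 1)) / (‖g (Pi.single i 1)‖ : ℂ) with hu
  have hun : ‖u‖ ≤ 1 := by
    rw [pi_norm_le_iff_of_nonneg zero_le_one]
    intro i
    simp only [hu]
    split_ifs with h
    · simp
    · rw [norm_div, RCLike.norm_conj]
      have : ‖g (Pi.single i 1)‖ ≠ 0 := norm_ne_zero_iff.mpr h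
      simp [this]
  have hgu : g u = ((∑ i, ‖g (Pi.single i 1)‖ : ℝ) : ℂ) := by
    have : u = ∑ i, u i • (Pi.single i (1:ℂ) : Fin 3 → ℂ) := by
      funext j
      simp [Finset.sum_apply, Pi.single_apply]
    rw [this, map_sum]
    push_cast
    apply Finset.sum_congr rfl
    intro i _
    rw [map_smul, smul_eq_mul]
    simp only [hu]
    split_ifs with h
    · simp [h]
    · have h1 : ‖g (Pi.single i 1)‖ ≠ 0 := norm_ne_zero_iff.mpr h
      have h1' : (‖g (Pi.single i 1)‖ : ℂ) ≠ 0 := by exact_mod_cast h1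
      rw [div_mul_eq_mul_div, mul_comm, Complex.mul_conj, Complex.normSq_eq_norm_sq]
      rw [div_eq_iff h1']
      push_cast
      ring
  have h2 : ‖g u‖ ≤ 1 := by
    have := g.le_opNorm u
    rw [hg, one_mul] at this
    linarith
  rw [hgu, Complex.norm_real] at h2
  exact (le_abs_self _).trans h2

lemma T_nr (x : X0) (φ : X0 →L[ℂ] ℂ) (hx : ‖x‖ = 1) (hφ : ‖φ‖ = 1) (hφx : φ x = 1) :
    ‖φ (T x)‖ ≤ Real.sqrt 3 := by
  obtain ⟨g, hgφ, hgn⟩ := exists_extension_norm_eq X0 φ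
  rw [hφ] at hgn
  have hexp : ∀ u : Fin 3 → ℂ, g u = ∑ i, u i * g (Pi.single i 1) := by
    intro u
    have : u = ∑ i, u i • (Pi.single i (1:ℂ) : Fin 3 → ℂ) := by
      funext j
      simp [Finset.sum_apply, Pi.single_apply]
    conv_lhs => rw [this, map_sum]
    apply Finset.sum_congr rfl
    intro i _
    rw [map_smul, smul_eq_mul]
  have hsum := sum_coef_le g hgn
  have h1 : (1:ℝ) ≤ ∑ i, ‖x.1 i‖ * ‖g (Pi.single i 1)‖ := by
    have e : g x.1 = 1 := by rw [hgφ x, hφx]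
    calc (1:ℝ) = ‖g x.1‖ := by rw [e, norm_one]
      _ = ‖∑ i, x.1 i * g (Pi.single i 1)‖ := by rw [hexp]
      _ ≤ ∑ i, ‖x.1 i * g (Pi.single i 1)‖ := norm_sum_le _ _
      _ = _ := by simp_rw [norm_mul]
  have hterm : ∀ i, 0 ≤ (1 - ‖x.1 i‖) * ‖g (Pi.single i 1)‖ := fun i =>
    mul_nonneg (by linarith [(norm_coord_le x i).trans hx.le]) (norm_nonneg _)
  have hzero : ∑ i, (1 - ‖x.1 i‖) * ‖g (Pi.single i 1)‖ = 0 := by
    apply le_antisymm _ (Finset.sum_nonneg fun i _ => hterm i)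
    simp_rw [sub_mul, one_mul]
    rw [Finset.sum_sub_distrib]
    linarith
  have hz : ∀ i, (1 - ‖x.1 i‖) * ‖g (Pi.single i 1)‖ = 0 := fun i =>
    (Finset.sum_eq_zero_iff_of_nonneg fun i _ => hterm i).mp hzero i (Finset.mem_univ i)
  have hmain : ‖g (T x).1‖ ≤ ∑ i, Real.sqrt 3 * ‖g (Pi.single i 1)‖ := by
    rw [hexp]
    refine (norm_sum_le _ _).trans (Finset.sum_le_sum fun i _ => ?_)
    rw [norm_mul]
    rcases mul_eq_zero.mp (hz i) with h | h
    · exact mul_le_mul_of_nonneg_right (T_coord_bound x hx i (by linarith)) (norm_nonneg _)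
    · rw [h]; simp
  rw [← Finset.mul_sum] at hmain
  rw [← hgφ (T x)]
  calc ‖g (T x).1‖ ≤ Real.sqrt 3 * ∑ i, ‖g (Pi.single i 1)‖ := hmain
    _ ≤ Real.sqrt 3 * 1 := by gcongr
    _ = Real.sqrt 3 := mul_one _

/-- the test vector `(0,1,-1)` -/
def yv : X0 := ⟨![0, 1, -1], by simp⟩

lemma yv_norm : ‖yv‖ ≤ 1 := by
  show ‖(![0, 1, -1] : Fin 3 → ℂ)‖ ≤ 1
  rw [pi_norm_le_iff_of_nonneg zero_le_one]
  intro i
  fin_cases i <;> simp

lemma T_yv : 2 ≤ ‖T yv‖ := by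
  have h := norm_coord_le (T yv) 0
  have e : (T yv).1 0 = 2 := by
    rw [T_coord]
    show (![0, 1, -1] : Fin 3 → ℂ) 1 - (![0, 1, -1] : Fin 3 → ℂ) 2 = 2
    simp
    norm_num
  rw [e] at h
  simpa using h

lemma SS_one_le (c : ℝ) (hc : c ∈ SS 1) : c ≤ Real.sqrt 3 / 2 := by
  obtain ⟨hc0, h⟩ := hc
  set A : ContinuousMultilinearMap ℂ (fun _ : Fin 1 => X0) X0 :=
    ContinuousMultilinearMap.ofSubsingleton ℂ X0 X0 (0 : Fin 1) T with hA
  have hAx : ∀ x : X0, A (fun _ => x) = T x := fun x => rfl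
  have h1 := h A yv yv_norm
  have h2 : nr 1 A ≤ Real.sqrt 3 := by
    apply Real.iSup_le _ (Real.sqrt_nonneg 3)
    rintro ⟨⟨x, φ⟩, hx, hφ, hφx⟩
    exact T_nr x φ hx hφ hφx
  rw [hAx] at h1
  have h3 := T_yv
  nlinarith

lemma SS_le (k : ℕ) (c : ℝ) (hc : c ∈ SS (k+1)) : c ≤ Real.sqrt 3 / 2 := by
  induction k with
  | zero => exact SS_one_le c hc
  | succ n ih => exact ih (anti n hc)

lemma sqrt3_lt : Real.sqrt 3 / 2 < 1 := by
  have : Real.sqrt 3 < 2 := by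
    rw [Real.sqrt_lt' (by norm_num)]
    norm_num
  linarith

lemma tends : ∃ L : ℝ, Filter.Tendsto (fun k : ℕ => sSup (SS k)) Filter.atTop (nhds L) ∧
    1/2 ≤ L ∧ L ≤ Real.sqrt 3 / 2 := by
  have hbdd : ∀ k, BddAbove (SS (k+1)) := fun k => ⟨_, fun c hc => SS_le k c hc⟩
  have hanti : Antitone (fun k : ℕ => sSup (SS (k+1))) := by
    apply antitone_nat_of_succ_le
    intro n
    exact csSup_le_csSup (hbdd n) ⟨_, half_mem (n+1)⟩ (anti n)
  have hlow : ∀ k, 1/2 ≤ sSup (SS (k+1)) := fun k => le_csSup (hbdd k) (half_mem k)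
  have hup : ∀ k, sSup (SS (k+1)) ≤ Real.sqrt 3 / 2 := fun k =>
    csSup_le ⟨_, half_mem k⟩ (fun c hc => SS_le k c hc)
  have hbb : BddBelow (Set.range fun k : ℕ => sSup (SS (k+1))) :=
    ⟨1/2, by rintro _ ⟨k, rfl⟩; exact hlow k⟩
  have ht := tendsto_atTop_ciInf hanti hbb
  refine ⟨_, (Filter.tendsto_add_atTop_iff_nat 1).mp ht, le_ciInf hlow, ?_⟩
  exact (ciInf_le hbb 0).trans (hup 0)

end


end Pool.Agent.PNI
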